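import Pool.Agent.Y490.SL.NilGen
import Pool.Agent.Y778.SL.Stm

/-!
# `K₀` of group rings is invariant under nilpotent extensions of the coefficients
-/

namespace Pool.Agent.Y490.SL

theorem nil : Pool.Agent.Y778.SL.S_Nil := by
  intro R S _ _ θ hs hN G _
  exact nil_group θ hs hN G

end Pool.Agent.Y490.SL
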