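import Pool.Agent.Y778.NK.K0Api

/-!
# `K₀` is invariant under nilpotent extensions
-/

open Matrix

namespace Pool.Agent.Y490.SL

open Pool.Agent.Y778.NK

noncomputable section

variable {A B : Type} [Ring A] [Ring B]

/-- all square matrices with entries in the kernel are nilpotent -/
def NilKer (f : A →+* B) : Prop :=
  ∀ (n : ℕ) (M : Matrix (Fin n) (Fin n) A), M.map f = 0 → IsNilpotent M

theorem lift_idem {f : A →+* B} (hs : Function.Surjective f) (hN : NilKer f) {n : ℕ}
    (e : IdMat B n) : ∃ e' : IdMat A n, mapId f e' = e := by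
  have h1 : ∃ e' : Matrix (Fin n) (Fin n) A, IsIdempotentElem e' ∧
      f.mapMatrix e' = (e : Matrix (Fin n) (Fin n) B) := by
    apply exists_isIdempotentElem_eq_of_ker_isNilpotent
    · intro x hx
      exact hN n x hx
    · choose g hg using hs
      refine ⟨(e : Matrix (Fin n) (Fin n) B).map g, ?_⟩
      ext i j
      exact hg _
    · exact e.2
  obtain ⟨e', he', h2⟩ := h1
  exact ⟨⟨e', he'⟩, Subtype.ext h2⟩

theorem unit_of_map_one {f : A →+* B} (hN : NilKer f) {n : ℕ} (P : Matrix (Fin n) (Fin n) A)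
    (hP : P.map f = 1) : ∃ Q : Matrix (Fin n) (Fin n) A, P * Q = 1 ∧ Q * P = 1 ∧
      Q.map f = 1 := by
  have h1 : (P - 1).map f = 0 := by
    have : (P - 1).map f = P.map f - (1 : Matrix (Fin n) (Fin n) A).map f :=
      Matrix.map_sub f (map_sub f) _ _
    rw [this, hP, Matrix.map_one f (map_zero f) (map_one f), sub_self]
  have h2 := hN n _ h1
  have h3 : IsUnit P := by
    have := h2.isUnit_one_add
    rwa [add_sub_cancel] at this
  obtain ⟨u, rfl⟩ := h3
  refine ⟨↑u⁻¹, u.mul_inv, u.inv_mul, ?_⟩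
  have h4 : ((u : Matrix (Fin n) (Fin n) A) * ((u⁻¹ : (Matrix (Fin n) (Fin n) A)ˣ) :
      Matrix (Fin n) (Fin n) A)).map f = 1 := by
    rw [u.mul_inv, Matrix.map_one f (map_zero f) (map_one f)]
  rw [Matrix.map_mul, hP, Matrix.one_mul] at h4
  exact h4

theorem key {f : A →+* B} (hs : Function.Surjective f) (hN : NilKer f) {m n : ℕ}
    (e : IdMat A m) (e' : IdMat A n) (u : Matrix (Fin m) (Fin n) B)
    (v : Matrix (Fin n) (Fin m) B) (h1 : u * v = (mapId f e : Matrix (Fin m) (Fin m) B))
    (h2 : v * u = (mapId f e' : Matrix (Fin n) (Fin n) B)) : K0.mk e = K0.mk e' := by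
  obtain ⟨e, he⟩ := e
  obtain ⟨e', he'⟩ := e'
  change u * v = e.map f at h1
  change v * u = e'.map f at h2
  choose g hg using hs
  set U : Matrix (Fin m) (Fin n) A := e * u.map g * e' with hU
  set V : Matrix (Fin n) (Fin m) A := e' * v.map g * e with hV
  have hug : (u.map g).map f = u := by
    ext i j
    exact hg _
  have hvg : (v.map g).map f = v := by
    ext i j
    exact hg _
  have hee : e.map f * e.map f = e.map f := by rw [← Matrix.map_mul, he]
  have hee' : e'.map f * e'.map f = e'.map f := by rw [← Matrix.map_mul, he']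
  have hue : e.map f * u = u * e'.map f := by rw [← h1, ← h2, Matrix.mul_assoc]
  have hve : e'.map f * v = v * e.map f := by rw [← h1, ← h2, Matrix.mul_assoc]
  have hUf : U.map f = e.map f * u := by
    rw [hU, Matrix.map_mul, Matrix.map_mul, hug, Matrix.mul_assoc, ← hue, ← Matrix.mul_assoc,
      hee]
  have hVf : V.map f = v * e.map f := by
    rw [hV, Matrix.map_mul, Matrix.map_mul, hvg, hve, Matrix.mul_assoc, hee]
  have heU : e * U = U := by
    rw [hU, ← Matrix.mul_assoc, ← Matrix.mul_assoc, he]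
  have hUe : U * e' = U := by
    rw [hU, Matrix.mul_assoc, he']
  have heV : e' * V = V := by
    rw [hV, ← Matrix.mul_assoc, ← Matrix.mul_assoc, he']
  have hVe : V * e = V := by
    rw [hV, Matrix.mul_assoc, he]
  have hUVf : U.map f * V.map f = e.map f := by
    rw [hUf, hVf, Matrix.mul_assoc, ← Matrix.mul_assoc u, h1, hee, hee]
  have hVUf : V.map f * U.map f = e'.map f := by
    rw [hUf, hVf, Matrix.mul_assoc, ← Matrix.mul_assoc (e.map f), hee, hue, ← Matrix.mul_assoc,
      h2, hee']
  obtain ⟨Q, hQ1, hQ2, hQ3⟩ := unit_of_map_one hN (U * V + (1 - e)) (by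
    have : (U * V + (1 - e)).map f = (U * V).map f + ((1 : Matrix (Fin m) (Fin m) A).map f -
        e.map f) := by
      rw [Matrix.map_add f (map_add f), Matrix.map_sub f (map_sub f)]
    rw [this, Matrix.map_mul, hUVf, Matrix.map_one f (map_zero f) (map_one f)]
    abel)
  have hUVe : U * V * e = U * V := by rw [Matrix.mul_assoc, hVe]
  have heUV : e * (U * V) = U * V := by rw [← Matrix.mul_assoc, heU]
  have hP1 : e * (U * V + (1 - e)) = U * V := by
    rw [mul_add, heUV, mul_sub, he, mul_one, sub_self, add_zero]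
  have hP2 : (U * V + (1 - e)) * e = U * V := by
    rw [add_mul, hUVe, sub_mul, he, one_mul, sub_self, add_zero]
  have hUVQ : U * V * Q = e := by
    rw [← hP1, Matrix.mul_assoc, hQ1, mul_one]
  -- the second idempotent
  set W : Matrix (Fin n) (Fin m) A := V * Q with hW
  have hUW : U * W = e := by rw [hW, ← Matrix.mul_assoc, hUVQ]
  have hWU : (W * U) * (W * U) = W * U := by
    rw [Matrix.mul_assoc, ← Matrix.mul_assoc U, hUW, heU]
  have h3 : e' * (W * U) = W * U := by
    rw [hW, ← Matrix.mul_assoc, ← Matrix.mul_assoc e' V Q, heV]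
  have h4 : (W * U) * e' = W * U := by
    rw [Matrix.mul_assoc, hUe]
  have h5 : (W * U).map f = e'.map f := by
    rw [Matrix.map_mul, hW, Matrix.map_mul, hQ3, Matrix.mul_one, hVUf]
  have h6 : (e' - W * U) * (e' - W * U) = e' - W * U := by
    rw [sub_mul, mul_sub, mul_sub, he', h3, h4, hWU]
    abel
  have h7 : IsNilpotent (e' - W * U) := by
    apply hN
    have : (e' - W * U).map f = e'.map f - (W * U).map f :=
      Matrix.map_sub f (map_sub f) _ _
    rw [this, h5, sub_self]
  have h8 : e' - W * U = 0 := by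
    obtain ⟨k, hk⟩ := h7
    rcases Nat.eq_zero_or_pos k with h0 | h0
    · rw [h0, pow_zero] at hk
      rw [← mul_one (e' - W * U), hk, mul_zero]
    · have h9 : IsIdempotentElem (e' - W * U) := h6
      rw [h9.pow_eq h0.ne'] at hk
      exact hk
  exact K0.mk_swap' _ _ U W hUW (sub_eq_zero.1 h8).symm

/-- the universal property of `K₀`, functions on idempotent matrices -/
theorem K0lift' {R : Type} [Ring R] {B : Type*} [AddCommGroup B]
    (F : ∀ (n : ℕ), IdMat R n → B)
    (hsum : ∀ (m n : ℕ) (e : IdMat R m) (f : IdMat R n) (d : IdMat R (m + n)),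
      (d : Matrix (Fin (m + n)) (Fin (m + n)) R) =
        Matrix.reindex finSumFinEquiv finSumFinEquiv
          (Matrix.fromBlocks (e : Matrix (Fin m) (Fin m) R) 0 0 (f : Matrix (Fin n) (Fin n) R)) →
      F (m + n) d = F m e + F n f)
    (hswap : ∀ (m n : ℕ) (e : IdMat R m) (f : IdMat R n) (u : Matrix (Fin m) (Fin n) R)
      (v : Matrix (Fin n) (Fin m) R), u * v = (e : Matrix (Fin m) (Fin m) R) →
      v * u = (f : Matrix (Fin n) (Fin n) R) → F m e = F n f) :
    ∃ T : K0 R →+ B, ∀ (n : ℕ) (e : IdMat R n), T (K0.mk e) = F n e := by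
  let g : FreeAbelianGroup (Σ n : ℕ, IdMat R n) →+ B :=
    FreeAbelianGroup.lift fun x => F x.1 x.2
  have hg : AddSubgroup.closure (K0Rel R) ≤ g.ker := by
    rw [AddSubgroup.closure_le]
    rintro x (⟨m, n, e, f, d, hd, rfl⟩ | ⟨m, n, e, f, u, v, h1, h2, rfl⟩)
    · show g _ = 0
      rw [map_sub, map_add]
      simp only [g, FreeAbelianGroup.lift_apply_of]
      rw [hsum m n e f d hd, sub_self]
    · show g _ = 0
      rw [map_sub]
      simp only [g, FreeAbelianGroup.lift_apply_of]
      rw [hswap m n e f u v h1 h2, sub_self]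
  refine ⟨QuotientAddGroup.lift _ g hg, ?_⟩
  intro n e
  show g _ = _
  simp only [g, FreeAbelianGroup.lift_apply_of]

/-- two idempotent matrices with the same image -/
theorem key_eq {f : A →+* B} (hs : Function.Surjective f) (hN : NilKer f) {n : ℕ}
    (e e' : IdMat A n) (h : mapId f e = mapId f e') : K0.mk e = K0.mk e' := by
  apply key hs hN e e' (mapId f e : Matrix (Fin n) (Fin n) B)
    (mapId f e : Matrix (Fin n) (Fin n) B) (mapId f e).2
  rw [← h]
  exact (mapId f e).2

theorem nil_bijective (f : A →+* B) (hs : Function.Surjective f) (hN : NilKer f) :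
    Function.Bijective (K0.map f) := by
  choose L hL using fun (n : ℕ) (e : IdMat B n) => lift_idem hs hN e
  obtain ⟨T, hT⟩ := K0lift' (R := B) (B := K0 A) (fun n e => K0.mk (L n e))
    (by
      intro m n e e' d hd
      have hd' := reindex_idem finSumFinEquiv (blocks_idem (L m e).2 (L n e').2)
      rw [← K0.mk_sum' (L m e) (L n e') ⟨_, hd'⟩ rfl]
      apply key_eq hs hN
      rw [hL]
      apply Subtype.ext
      rw [hd]
      have h1 := congrArg Subtype.val (hL m e)
      have h2 := congrArg Subtype.val (hL n e')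
      ext i j
      obtain ⟨i, rfl⟩ := finSumFinEquiv.surjective i
      obtain ⟨j, rfl⟩ := finSumFinEquiv.surjective j
      show _ = f (Matrix.reindex finSumFinEquiv finSumFinEquiv
        (fromBlocks (L m e : Matrix (Fin m) (Fin m) A) 0 0
          (L n e' : Matrix (Fin n) (Fin n) A)) (finSumFinEquiv i) (finSumFinEquiv j))
      rcases i with i | i <;> rcases j with j | j
      · have h3 := (congrFun (congrFun h1 i) j).symm
        change _ = f ((L m e : Matrix (Fin m) (Fin m) A) i j) at h3
        simpa using h3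
      · simp
      · simp
      · have h3 := (congrFun (congrFun h2 i) j).symm
        change _ = f ((L n e' : Matrix (Fin n) (Fin n) A) i j) at h3
        simpa using h3)
    (by
      intro m n e e' u v h1 h2
      exact key hs hN _ _ u v (by rw [hL, h1]) (by rw [hL, h2]))
  have h1 : ∀ x, T (K0.map f x) = x := by
    intro x
    obtain ⟨m, n, e, e', rfl⟩ := K0_exists x
    rw [map_sub, map_sub, K0.map_mk, K0.map_mk, hT, hT]
    rw [key_eq hs hN (L m (mapId f e)) e (hL _ _), key_eq hs hN (L n (mapId f e')) e' (hL _ _)]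
  have h2 : ∀ y, K0.map f (T y) = y := by
    intro y
    obtain ⟨m, n, e, e', rfl⟩ := K0_exists y
    rw [map_sub, map_sub, hT, hT, K0.map_mk, K0.map_mk, hL, hL]
  exact ⟨Function.LeftInverse.injective h1, Function.RightInverse.surjective h2⟩

theorem mul_coeff {R : Type} [CommRing R] (I J : Ideal R) {G : Type} [Group G]
    (x y : MonoidAlgebra R G) (hx : ∀ g, x.coeff g ∈ I) (hy : ∀ g, y.coeff g ∈ J) (g : G) :
    (x * y).coeff g ∈ I * J := by
  classical
  rw [MonoidAlgebra.coeff_mul]
  refine Ideal.sum_mem _ fun a _ => Ideal.sum_mem _ fun b _ => ?_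
  show (if a * b = g then x.coeff a * y.coeff b else 0) ∈ I * J
  split_ifs
  · exact Ideal.mul_mem_mul (hx a) (hy b)
  · exact Ideal.zero_mem _

/-- matrices over a monoid algebra with coefficients in a nilpotent ideal -/
theorem pow_coeff {R : Type} [CommRing R] (I : Ideal R) {G : Type} [Group G] {n : ℕ}
    (M : Matrix (Fin n) (Fin n) (MonoidAlgebra R G)) (hM : ∀ i j g, (M i j).coeff g ∈ I) (k : ℕ)
    (i j : Fin n) (g : G) : ((M ^ k) i j).coeff g ∈ I ^ k := by
  induction k generalizing i j g with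
  | zero => simp
  | succ k ih =>
    have h1 : (M ^ (k + 1)) i j = ∑ l, (M ^ k) i l * M l j := by
      rw [pow_succ M k, Matrix.mul_apply]
    rw [h1, MonoidAlgebra.coeff_sum, Finsupp.finsetSum_apply, pow_succ I k]
    exact Ideal.sum_mem _ fun l _ => mul_coeff _ _ _ _ (ih i l) (hM l j) g

theorem nilKer_monoidAlgebra {R S : Type} [CommRing R] [CommRing S] (θ : R →+* S)
    (hN : ∃ N : ℕ, RingHom.ker θ ^ N = ⊥) (G : Type) [Group G] :
    NilKer (MonoidAlgebra.mapRingHom G θ) := by
  obtain ⟨N, hN⟩ := hN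
  intro n M hM
  refine ⟨N, ?_⟩
  ext i j g
  have h1 := pow_coeff (RingHom.ker θ) M (fun i j g => by
    rw [RingHom.mem_ker, ← MonoidAlgebra.coeff_mapRingHom]
    have h2 : MonoidAlgebra.mapRingHom G θ (M i j) = 0 := congrFun (congrFun hM i) j
    rw [h2]
    rfl) N i j g
  rw [hN] at h1
  rw [(Submodule.mem_bot R).1 h1]
  rfl

theorem nil_group {R S : Type} [CommRing R] [CommRing S] (θ : R →+* S)
    (hs : Function.Surjective θ) (hN : ∃ N : ℕ, RingHom.ker θ ^ N = ⊥) (G : Type) [Group G] :
    Function.Bijective (K0.map (MonoidAlgebra.mapRingHom G θ)) :=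
  nil_bijective _ (MonoidAlgebra.map_surjective (θ : R →+ S) hs) (nilKer_monoidAlgebra θ hN G)

end

end Pool.Agent.Y490.SL
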